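import Pool.Graph.R_pool_sql_team_seeded_3997aac3.Results.MP_918064_lc.DistanceToSplit

/-!
# 2-Dominating Set: distance to split graphs plus budget, independent dominating sets

`2`-Dominating Set is W[2]-complete even if the parameter is the size of the split modulator `X`
plus the budget `l`, and it is W[2]-hard for this parameter to separate the instances with an
independent `2`-dominating set of size at most `l` that avoids `X` from those without any
`2`-dominating set of size at most `l`.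
-/

set_option autoImplicit false

namespace Pool.Agent.Results.MP_918064_lc.IndependentWithBudget

open Pool.Agent.H633R2 Pool.Agent.NPC Pool.Agent.Results.MP_918064_lc.DistanceToSplit

/-- The instances of the problem: the matrix of a graph `G`, the 0/1 vector of the set `X`, the
budget `l`. -/
abbrev Ins : Type := List (List Bool) × List Bool × ℕ

/-- The parameter `|X| + l`. -/
def paramXL (x : Ins) : ℕ := paramX x + x.2.2

/-- `G - X` is a split graph, `|X| ≤ l`, and `G` has an independent `2`-dominating set of size at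
most `l` that is disjoint from `X`. -/
def StrongYes (x : Ins) : Prop :=
  IsSplit ((graphOf x.1).induce {v | v ∉ setX x}) ∧ paramX x ≤ x.2.2 ∧
    ∃ S : Finset (Fin x.1.length), S.card ≤ x.2.2 ∧ RDominates (graphOf x.1) 2 S ∧
      (graphOf x.1).IsIndepSet (S : Set (Fin x.1.length)) ∧ Disjoint S (setX x)

/-- `G - X` is a split graph and `G` has an independent `r`-dominating set of size at most `l`. -/
def IndRDom (r : ℕ) (x : Ins) : Prop :=
  IsSplit ((graphOf x.1).induce {v | v ∉ setX x}) ∧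
    ∃ S : Finset (Fin x.1.length), S.card ≤ x.2.2 ∧ RDominates (graphOf x.1) r S ∧
      (graphOf x.1).IsIndepSet (S : Set (Fin x.1.length))

section
open _root_.Q224.RD

variable {V : Type*} {G : SimpleGraph V} {φ : V → Cd} {n k : ℕ} {dm : ℕ → ℕ → Bool}

theorem backwardS [Fintype V] [DecidableEq V] (h : Lay G φ n k dm) {D : ℕ → ℕ}
    (hD : ∀ i < k, D i < n) (hd : ∀ e < n, ∃ i < k, dm (D i) e = true) :
    ∃ S : Finset V, S.card ≤ k ∧ (∀ v, ∃ s ∈ S, Near G 2 v s) ∧ ∀ s ∈ S, (φ s).1 = 3 := by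
  classical
  have hs : ∀ i : Fin k, ∃ u, φ u = (3, D i, (i : ℕ)) := fun i =>
    h.surj (3, D i, (i : ℕ)) (Or.inr (Or.inr (Or.inr (Or.inl ⟨rfl, hD i i.2, i.2⟩))))
  choose s hs using hs
  refine ⟨Finset.univ.image s, ?_, fun v => ?_, ?_⟩
  · exact Finset.card_image_le.trans (by simp)
  · have key : ∀ i : Fin k, Near G 2 v (s i) → ∃ s' ∈ Finset.univ.image s, Near G 2 v s' :=
      fun i hi => ⟨s i, Finset.mem_image_of_mem _ (Finset.mem_univ i), hi⟩
    -- the vertices `w_v`
    have hw : ∀ a < n, ∃ u, φ u = (1, a, 0) := fun a ha =>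
      h.surj _ (Or.inr (Or.inl ⟨rfl, ha, rfl⟩))
    rcases h.mem v with hv | hv | hv | hv | hv
    · -- `x_i`
      refine key ⟨_, hv.2.1⟩ (near_two.mpr ⟨v, Or.inl rfl, Or.inr (h.adj' ?_ ?_)⟩)
      · rw [hs]
        intro h1
        rw [h1] at hv
        exact absurd hv.1 (by norm_num)
      · left
        rw [rel_iff, hs]
        left
        exact ⟨hv.1, rfl, rfl⟩
    · -- `w_a`
      obtain ⟨i, hi, -⟩ := hd _ hv.2.1
      obtain ⟨w, hw⟩ := hw (D i) (hD i hi)
      refine key ⟨i, hi⟩ (near_two.mpr ⟨w, ?_, Or.inr (h.adj' ?_ ?_)⟩)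
      · by_cases hvw : v = w
        · exact Or.inl hvw
        · right
          refine (h.adj v w).mpr ⟨hvw, Or.inl (rel_iff.mpr ?_)⟩
          rw [hw]
          exact Or.inr (Or.inr (Or.inl ⟨hv.1, rfl⟩))
      · rw [hs, hw]
        intro h1
        simp at h1
      · left
        rw [rel_iff, hs, hw]
        exact Or.inr (Or.inr (Or.inr (Or.inr ⟨rfl, rfl, rfl⟩)))
    · -- elements
      obtain ⟨i, hi, hdi⟩ := hd _ hv.2.1
      obtain ⟨w, hw⟩ := hw (D i) (hD i hi)
      refine key ⟨i, hi⟩ (near_two.mpr ⟨w, Or.inr (h.adj' ?_ ?_), Or.inr (h.adj' ?_ ?_)⟩)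
      · rw [hw]
        intro h1
        rw [h1] at hv
        exact absurd hv.1 (by norm_num)
      · right
        rw [rel_iff, hw]
        exact Or.inr (Or.inr (Or.inr (Or.inl ⟨rfl, hv.1, hdi⟩)))
      · rw [hs, hw]
        intro h1
        simp at h1
      · left
        rw [rel_iff, hs, hw]
        exact Or.inr (Or.inr (Or.inr (Or.inr ⟨rfl, rfl, rfl⟩)))
    · -- `u_{a, i}`
      obtain ⟨w, hw'⟩ := h.surj (0, (φ v).2.2, 0) (Or.inl ⟨rfl, hv.2.2, rfl⟩)
      refine key ⟨_, hv.2.2⟩ (near_two.mpr ⟨w, Or.inr (h.adj' ?_ ?_), Or.inr (h.adj' ?_ ?_)⟩)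
      · rw [hw']
        intro h1
        rw [h1] at hv
        exact absurd hv.1 (by norm_num)
      · right
        rw [rel_iff, hw']
        exact Or.inl ⟨rfl, hv.1, rfl⟩
      · rw [hs, hw']
        intro h1
        simp at h1
      · left
        rw [rel_iff, hs, hw']
        exact Or.inl ⟨rfl, rfl, rfl⟩
    · -- `p_i`
      obtain ⟨w, hw'⟩ := h.surj (0, (φ v).2.1, 0) (Or.inl ⟨rfl, hv.2.1, rfl⟩)
      refine key ⟨_, hv.2.1⟩ (near_two.mpr ⟨w, Or.inr (h.adj' ?_ ?_), Or.inr (h.adj' ?_ ?_)⟩)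
      · rw [hw']
        intro h1
        rw [h1] at hv
        exact absurd hv.1 (by norm_num)
      · right
        rw [rel_iff, hw']
        exact Or.inr (Or.inl ⟨rfl, hv.1, rfl⟩)
      · rw [hs, hw']
        intro h1
        simp at h1
      · left
        rw [rel_iff, hs, hw']
        exact Or.inl ⟨rfl, rfl, rfl⟩
  · intro x hx
    rw [Finset.mem_image] at hx
    obtain ⟨i, -, rfl⟩ := hx
    rw [hs]


end

open _root_.Q224.RD in
theorem strong_rdc (x : List (List Bool) × ℕ) (hx : HasDomSet x) : StrongYes (rdc x) := by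
  classical
  have h0 := (rdc_iff x).1 hx
  obtain ⟨M, k⟩ := x
  obtain ⟨D, hD, hd⟩ := (dom_iff M k).1 hx
  have h := lay M.length (min k M.length) (dmM M)
  obtain ⟨S, hS, hdom, h3⟩ := backwardS h hD hd
  refine ⟨h0.1, card_le _ _ _, S, hS, ?_, ?_, ?_⟩
  · intro v
    obtain ⟨s, hs, hn⟩ := hdom v
    exact ⟨s, hs, (near_iff _ _ _ _).1 hn⟩
  · intro u hu v hv _ hadj
    have h4 := h3 u hu
    have h5 := h3 v hv
    have h6 := adj_rel h hadj
    rw [rel_iff, rel_iff] at h6
    omega
  · refine Finset.disjoint_left.2 ?_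
    intro u hu hu'
    have h4 := h3 u hu
    have h5 := (mem_setOf _ _ _ u).1 hu'
    omega

open _root_.Q224.RD Pool.Agent.NPC.Q224RD in
theorem main (Q : Ins → Prop) (h1 : ∀ x, StrongYes x → Q x)
    (h2 : ∀ x, Q x → ∃ S : Finset (Fin x.1.length), S.card ≤ x.2.2 ∧
      RDominates (graphOf x.1) 2 S) : W2Hard paramXL Q := by
  intro α _ κ P hP
  refine FptReduces.trans hP ⟨rdc, fun n => n + n, FptTime.of_poly p_rdc,
    (Primrec.nat_add.comp Primrec.id Primrec.id).to_comp, fun x => ⟨⟨fun h => h1 _ (strong_rdc x h),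
      fun h => ?_⟩, ?_⟩⟩
  · obtain ⟨M, k⟩ := x
    have hl := lay M.length (min k M.length) (dmM M)
    have hX : HasRDS (graphOf (rdc (M, k)).1) 2 (rdc (M, k)).2.2 := by
      obtain ⟨S, hS, hd⟩ := h2 _ h
      refine ⟨S, hS, fun v => ?_⟩
      obtain ⟨s, hs, hn⟩ := hd v
      exact ⟨s, hs, (near_iff _ _ _ _).2 hn⟩
    exact (dom_iff M k).2 (forward hl (min_le_right _ _) hX)
  · have h3 : paramX (rdc x) ≤ x.2 := (card_le _ _ _).trans (min_le_left _ _)
    have h4 : (rdc x).2.2 ≤ x.2 := min_le_left _ _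
    exact Nat.add_le_add h3 h4

/-- `2`-Dominating Set is W[2]-complete for the parameter `|X| + l`; every problem `Q` that contains
the instances with `|X| ≤ l` and an independent `2`-dominating set of size at most `l` avoiding `X`,
and all of whose instances have a `2`-dominating set of size at most `l`, is W[2]-hard for this
parameter; in particular this holds for independent `2`-dominating sets.  For every `r ≥ 3`,
`r`-Dominating Set is fixed-parameter tractable for the parameter `|X|`. -/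
theorem result :
    (InW2 paramXL (RDomSVD 2) ∧ W2Hard paramXL (RDomSVD 2) ∧ W2Hard paramXL (IndRDom 2) ∧
    ∀ Q : Ins → Prop, (∀ x, StrongYes x → Q x) →
      (∀ x, Q x → ∃ S : Finset (Fin x.1.length), S.card ≤ x.2.2 ∧
        RDominates (graphOf x.1) 2 S) → W2Hard paramXL Q) ∧
    ∀ r : ℕ, 3 ≤ r → IsFpt paramX (RDomSVD r) := by
  refine ⟨⟨?_, main _ ?_ ?_, main _ ?_ ?_, main⟩, DistanceToSplit.result.2.2⟩
  · have h := DistanceToSplit.result.1
    refine FptReduces.trans ⟨fun x => x, fun n => n, FptTime.of_poly Poly.id, Computable.id,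
      fun x => ⟨Iff.rfl, Nat.le_add_right _ _⟩⟩ h
  · rintro x ⟨hs, -, S, hS, hd, -⟩
    exact ⟨hs, S, hS, hd⟩
  · rintro x ⟨-, S, hS, hd⟩
    exact ⟨S, hS, hd⟩
  · rintro x ⟨hs, -, S, hS, hd, hi, -⟩
    exact ⟨hs, S, hS, hd, hi⟩
  · rintro x ⟨-, S, hS, hd, -⟩
    exact ⟨S, hS, hd⟩

end Pool.Agent.Results.MP_918064_lc.IndependentWithBudget
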